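import Pool.Agent.Helper91.MC9.Spec

set_option autoImplicit false

namespace Pool.Agent.Helper54.MC9.SUP

open SimpleGraph Pool.Agent.Helper91.MC9

lemma edges_sum {V V' : Type} [Finite V] [Finite V'] (G : SimpleGraph V) (G' : SimpleGraph V') :
    G.edgeSet.ncard + G'.edgeSet.ncard ≤ (G ⊕g G').edgeSet.ncard := by
  have hi : Function.Injective (Sum.inl : V → V ⊕ V') := Sum.inl_injective
  have hj : Function.Injective (Sum.inr : V' → V ⊕ V') := Sum.inr_injective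
  have h1 : (Sym2.map (Sum.inl : V → V ⊕ V') '' G.edgeSet).ncard = G.edgeSet.ncard :=
    Set.ncard_image_of_injective _ (Sym2.map.injective hi)
  have h2 : (Sym2.map (Sum.inr : V' → V ⊕ V') '' G'.edgeSet).ncard = G'.edgeSet.ncard :=
    Set.ncard_image_of_injective _ (Sym2.map.injective hj)
  have hd : Disjoint (Sym2.map (Sum.inl : V → V ⊕ V') '' G.edgeSet)
      (Sym2.map (Sum.inr : V' → V ⊕ V') '' G'.edgeSet) := by
    rw [Set.disjoint_left]
    rintro e ⟨e1, -, rfl⟩ ⟨e2, -, h⟩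
    induction e1 with
    | _ a b =>
      induction e2 with
      | _ c d =>
        simp [Sym2.map_mk] at h
  rw [← h1, ← h2, ← Set.ncard_union_eq hd (Set.toFinite _) (Set.toFinite _)]
  refine Set.ncard_le_ncard ?_ (Set.toFinite _)
  rintro e (⟨e1, he, rfl⟩ | ⟨e1, he, rfl⟩)
  · induction e1 with
    | _ a b =>
      rw [SimpleGraph.mem_edgeSet] at he
      simpa [Sym2.map_mk, SimpleGraph.mem_edgeSet] using he
  · induction e1 with
    | _ a b =>
      rw [SimpleGraph.mem_edgeSet] at he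
      simpa [Sym2.map_mk, SimpleGraph.mem_edgeSet] using he

theorem main (hESET : S_ESET) (hSUMF : S_SUMF) (hSAT : S_SAT) : S_SUP := by
  intro ℋ hS hC a b
  obtain ⟨-, hE⟩ := hESET ℋ hS
  obtain ⟨-, -, hma, -, -⟩ := hE a
  obtain ⟨-, -, hmb, -, -⟩ := hE b
  obtain ⟨-, hbdd, -, -, -⟩ := hE (a + b)
  obtain ⟨V, _, G, hV, hG, he⟩ := hma
  obtain ⟨V', _, G', hV', hG', he'⟩ := hmb
  have hfree := hSUMF ℋ hC V V' G G' hG.1 hG'.1
  obtain ⟨G2, hle, hmax⟩ := hSAT ℋ (V ⊕ V') (G ⊕g G') hfree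
  have hmem : G2.edgeSet.ncard ∈ Eset ℋ (a + b) :=
    ⟨V ⊕ V', inferInstance, G2, by rw [Nat.card_sum, hV, hV'], hmax, rfl⟩
  have h1 : G2.edgeSet.ncard ≤ Mmax ℋ (a + b) := le_csSup hbdd hmem
  have h2 : (G ⊕g G').edgeSet.ncard ≤ G2.edgeSet.ncard :=
    Set.ncard_le_ncard (SimpleGraph.edgeSet_subset_edgeSet.2 hle) (Set.toFinite _)
  have h3 := edges_sum G G'
  rw [he, he'] at h3
  omega

end Pool.Agent.Helper54.MC9.SUP
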