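import Pool.Agent.Helper91.MC9.Spec

set_option autoImplicit false

namespace Pool.Agent.Helper54.MC9.UNQ

open SimpleGraph Pool.Agent.Helper91.MC9

theorem main : S_UNQ := by
  intro s
  refine ⟨Nat.card (Σ k : Fin s, SimpleGraph (Fin k)), ?_⟩
  intro V _ G
  classical
  haveI : Fintype V := Fintype.ofFinite V
  haveI : Finite G.ConnectedComponent := Quot.finite _
  haveI : Fintype G.ConnectedComponent := Fintype.ofFinite _
  haveI : Finite (Σ k : Fin s, SimpleGraph (Fin k)) := inferInstance
  set N := Nat.card (Σ k : Fin s, SimpleGraph (Fin k)) with hN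
  set U : Set G.ConnectedComponent := {C | Uniq G C} with hU
  set sz : G.ConnectedComponent → ℕ := fun C => Nat.card C.supp with hsz
  set Us : Set G.ConnectedComponent := {C | C ∈ U ∧ sz C < s} with hUs
  set Ub : Set G.ConnectedComponent := {C | C ∈ U ∧ s ≤ sz C} with hUb
  have hsplit : U = Us ∪ Ub := by
    ext C
    constructor
    · intro h
      rcases lt_or_ge (sz C) s with h1 | h1
      · exact Or.inl ⟨h, h1⟩
      · exact Or.inr ⟨h, h1⟩
    · rintro (h | h) <;> exact h.1
  have hcard : uq G ≤ Us.ncard + Ub.ncard := by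
    have : uq G = U.ncard := rfl
    rw [this, hsplit]
    exact Set.ncard_union_le _ _
  -- the small unique components
  have hsmall : Us.ncard ≤ N := by
    have hex : ∀ C : Us, ∃ q : Σ k : Fin s, SimpleGraph (Fin k),
        Nonempty (C.1.toSimpleGraph ≃g q.2) := by
      rintro ⟨C, hC, hlt⟩
      have e : C.supp ≃ Fin (Nat.card C.supp) := Finite.equivFin _
      refine ⟨⟨⟨sz C, hlt⟩, (C.toSimpleGraph).map e.toEmbedding⟩, ⟨?_⟩⟩
      exact SimpleGraph.Iso.map e C.toSimpleGraph
    choose f hf using hex
    have hinj : Function.Injective f := by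
      intro C C' h
      by_contra hne
      have hne' : C'.1 ≠ C.1 := fun h' => hne (Subtype.ext h'.symm)
      obtain ⟨i1⟩ := hf C
      obtain ⟨i2⟩ := hf C'
      rw [h] at i1
      exact (C.2.1 C'.1 hne').false (i1.trans i2.symm)
    have := Nat.card_le_card_of_injective f hinj
    exact this
  -- the big ones
  have hbig : s * Ub.ncard ≤ Nat.card V := by
    have h1 : Nat.card V = ∑ C : G.ConnectedComponent, sz C := by
      have e := (Equiv.sigmaFiberEquiv (G.connectedComponentMk)).symm
      rw [Nat.card_congr e, Nat.card_sigma]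
      rfl
    rw [h1]
    have h2 : Ub.ncard = (Finset.univ.filter fun C => C ∈ Ub).card := by
      rw [← Set.ncard_coe_finset]
      congr 1
      ext C; simp
    rw [h2, mul_comm, ← smul_eq_mul]
    calc (Finset.univ.filter fun C => C ∈ Ub).card • s
        ≤ ∑ C ∈ Finset.univ.filter (fun C => C ∈ Ub), sz C := by
          refine Finset.card_nsmul_le_sum _ _ _ ?_
          intro C hC
          exact (Finset.mem_filter.1 hC).2.2
      _ ≤ ∑ C : G.ConnectedComponent, sz C :=
          Finset.sum_le_sum_of_subset (Finset.filter_subset _ _)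
  calc s * uq G ≤ s * (Us.ncard + Ub.ncard) := Nat.mul_le_mul_left _ hcard
    _ = s * Us.ncard + s * Ub.ncard := by ring
    _ ≤ s * N + Nat.card V := add_le_add (Nat.mul_le_mul_left _ hsmall) hbig
    _ = Nat.card V + s * N := add_comm _ _

end Pool.Agent.Helper54.MC9.UNQ
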